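import Pool.Agent.H13.LN.Targets

/-!
# Row GEQ: equivalent flat words have the same value
-/

set_option autoImplicit false

open Finset Pool.Agent.H59.LIN Pool.Agent.H13.LN

namespace Pool.Agent.H42.LNT

theorem geq (hRUN : T_RUN) : T_GEQ := by
  intro B _ d g hg n f f' h
  obtain ⟨-, -, -, -, hK, -, hSt, -, -⟩ := hRUN
  have key : (run f = run f' ∧ nd f = nd f') ∧ (Knot f → nd f = d → g n f = g n f') := by
    induction h with
    | rel x y hxy =>
      refine ⟨hSt n x y hxy, ?_⟩
      obtain ⟨h1, h2⟩ := hSt n x y hxy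
      intro hk hd
      have hk' : Knot y := hK n Bool Bool x y h1 hk
      have hd' : nd y = d := by rw [← h2]; exact hd
      cases hxy with
      | ss u v i => exact hg.ss n u v i hk' hd'
      | far u v i j b c hij => exact hg.far n u v i j b c hij hk hd
      | braid u v i j hij => exact hg.braid n u v i j hij hk hd
      | sx u v i => exact hg.sx n u v i hk hd
      | ssx u v i j hij => exact hg.ssx n u v i j hij hk hd
      | ssx' u v i j hij => exact hg.ssx' n u v i j hij hk hd
    | refl x => exact ⟨⟨rfl, rfl⟩, fun _ _ => rfl⟩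
    | symm x y _ ih =>
      obtain ⟨⟨h1, h2⟩, h3⟩ := ih
      refine ⟨⟨h1.symm, h2.symm⟩, ?_⟩
      intro hk hd
      exact (h3 (hK n Bool Bool y x h1.symm hk) (by rw [h2]; exact hd)).symm
    | trans x y z _ _ ih1 ih2 =>
      obtain ⟨⟨h1, h2⟩, h3⟩ := ih1
      obtain ⟨⟨h4, h5⟩, h6⟩ := ih2
      refine ⟨⟨h1.trans h4, h2.trans h5⟩, ?_⟩
      intro hk hd
      rw [h3 hk hd]
      exact h6 (hK n Bool Bool x y h1 hk) (by rw [← h2]; exact hd)
  exact key.2

end Pool.Agent.H42.LNT
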