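import Pool.Agent.H13.LN.Targets

/-!
# Row HKI: kinks
-/

set_option autoImplicit false

open Finset Pool.Agent.H59.LIN Pool.Agent.H13.LN

namespace Pool.Agent.H42.LNT

theorem hki_run_up {n : ℕ} (f : Wd n) : ∀ q : Fin (n + 1),
    run (up f) q.castSucc = (run f q).castSucc := by
  induction f with
  | nil => intro q; rfl
  | cons x f ih =>
    intro q
    show run (up f) (tr x.1.castSucc q.castSucc) = (run f (tr x.1 q)).castSucc
    rw [← ih]
    congr 1
    unfold tr
    rcases eq_or_ne q x.1.castSucc with h | h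
    · subst h
      rw [Equiv.swap_apply_left, Equiv.swap_apply_left, Fin.succ_castSucc]
    · rcases eq_or_ne q x.1.succ with h' | h'
      · subst h'
        rw [← Fin.succ_castSucc, Equiv.swap_apply_right, Equiv.swap_apply_right]
      · rw [Equiv.swap_apply_of_ne_of_ne h h']
        apply Equiv.swap_apply_of_ne_of_ne
        · intro e; exact h (Fin.castSucc_injective _ e)
        · intro e
          rw [Fin.succ_castSucc] at e
          exact h' (Fin.castSucc_injective _ e)

theorem hki_last_ne {n : ℕ} (i : Fin n) : Fin.last (n + 1) ≠ i.castSucc.castSucc ∧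
    Fin.last (n + 1) ≠ i.castSucc.succ := by
  have := i.isLt
  constructor <;>
  · intro e
    have h := congrArg Fin.val e
    simp at h
    omega

theorem hki_run_last {n : ℕ} (f : Wd n) : run (up f) (Fin.last (n + 1)) = Fin.last (n + 1) := by
  induction f with
  | nil => rfl
  | cons x f ih =>
    show run (up f) (tr x.1.castSucc (Fin.last (n + 1))) = _
    obtain ⟨h1, h2⟩ := hki_last_ne x.1
    unfold tr
    rw [Equiv.swap_apply_of_ne_of_ne h1 h2]
    exact ih

theorem hki_ev_up {n : ℕ} (f : Wd n) : ∀ (k : ℕ) (q : Fin (n + 1)),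
    ev k (up f) q.castSucc = ev k f q := by
  induction f with
  | nil => intro k q; rfl
  | cons x f ih =>
    obtain ⟨i, b⟩ := x
    intro k q
    show (if b = true ∧ (q.castSucc = i.castSucc.castSucc ∨ q.castSucc = i.castSucc.succ) then
        [k] else []) ++ ev (if b then k + 1 else k) (up f) (tr i.castSucc q.castSucc) =
      (if b = true ∧ (q = i.castSucc ∨ q = i.succ) then [k] else []) ++
        ev (if b then k + 1 else k) f (tr i q)
    have h1 : tr i.castSucc q.castSucc = (tr i q).castSucc := hki_run_up [(i, b)] q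
    rw [h1, ih, Fin.succ_castSucc]
    simp only [Fin.castSucc_inj]

theorem hki_ev_last {n : ℕ} (f : Wd n) : ∀ k : ℕ, ev k (up f) (Fin.last (n + 1)) = [] := by
  induction f with
  | nil => intro k; rfl
  | cons x f ih =>
    obtain ⟨i, b⟩ := x
    intro k
    show (if b = true ∧ (Fin.last (n + 1) = i.castSucc.castSucc ∨
        Fin.last (n + 1) = i.castSucc.succ) then [k] else []) ++
      ev (if b then k + 1 else k) (up f) (tr i.castSucc (Fin.last (n + 1))) = []
    obtain ⟨h1, h2⟩ := hki_last_ne i
    have h3 : tr i.castSucc (Fin.last (n + 1)) = Fin.last (n + 1) := by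
      unfold tr
      exact Equiv.swap_apply_of_ne_of_ne h1 h2
    rw [h3, ih, if_neg (by rintro ⟨-, h | h⟩; exacts [h1 h, h2 h])]
    rfl

theorem hki_nd_up {n : ℕ} (f : Wd n) : nd (up f) = nd f := by
  unfold nd up
  rw [List.countP_map]
  rfl

theorem hki (hRUN : T_RUN) (hC2 : T_C2) (hBL2 : T_BL2) (_hBLV : T_BLV) (hEVA : T_EVA) :
    T_HKI := by
  intro B _ d g H hGH e b L hd hVL
  obtain ⟨hFlat, hH⟩ := hGH
  obtain ⟨hR1, hR2, -, -, -, hR6, -, -, -⟩ := hRUN
  set n := L.length with hn
  set τ : Equiv.Perm (Fin (n + 1)) := Equiv.swap (finRotate (n + 1) 0) (Fin.last n) with hτ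
  have hlen : (b :: L).length = n + 1 := rfl
  obtain ⟨f, hnd, hL, hrun⟩ := hC2 e n (b :: L) τ hVL hlen
  obtain ⟨hKf, hblk⟩ := hBL2 n (b :: L) τ f hlen hL hrun
  have hτ0 : run f (τ 0) = Fin.last n := by
    rw [hrun, hτ, Equiv.swap_apply_left]
  -- the iterates
  have hq : ∀ (j : ℕ) (hj : j < n + 1), (run f)^[j] (τ 0) = τ ⟨j, hj⟩ := by
    intro j
    induction j with
    | zero => intro hj; rfl
    | succ j ih =>
      intro hj
      rw [Function.iterate_succ_apply', ih (by omega), hrun, finRotate_of_lt (by omega)]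
  have hne : ∀ j : ℕ, 1 ≤ j → j < n + 1 → run f ((run f)^[j] (τ 0)) ≠ Fin.last n := by
    intro j hj hj' h
    rw [← hτ0] at h
    have h1 := (hR2 n Bool f).1 h
    rw [hq j hj'] at h1
    have h2 := τ.injective h1
    have h3 := congrArg Fin.val h2
    simp at h3
    omega
  set F : Wd (n + 1) := up f ++ [(Fin.last n, true)] with hF
  have hndF : nd F = d := by
    have h1 : nd F = nd (up f) + 1 := by
      rw [hF]
      unfold nd
      rw [List.countP_append]
      rfl
    rw [h1, hki_nd_up, hnd, hd]
  have hKF : Knot F := hR6 n f true hKf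
  have hg : g (n + 1) F = 0 := hFlat.kink n f hKf (by rw [hnd, hd])
  have htr : (Fin.last n).succ = Fin.last (n + 1) := Fin.succ_last n
  have hrunF : ∀ q : Fin (n + 1), run F q.castSucc =
      tr (Fin.last n) (run f q).castSucc := by
    intro q
    rw [hF, hR1, hki_run_up]
    rfl
  have hrunF1 : ∀ q : Fin (n + 1), run f q = Fin.last n → run F q.castSucc = Fin.last (n + 1) := by
    intro q h
    rw [hrunF, h, tr, Equiv.swap_apply_left, htr]
  have hrunF2 : ∀ q : Fin (n + 1), run f q ≠ Fin.last n → run F q.castSucc =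
      (run f q).castSucc := by
    intro q h
    rw [hrunF, tr, Equiv.swap_apply_of_ne_of_ne]
    · intro h'; exact h (Fin.castSucc_injective _ h')
    · rw [htr]; exact (Fin.castSucc_lt_last _).ne
  have hrunF3 : run F (Fin.last (n + 1)) = (Fin.last n).castSucc := by
    rw [hF, hR1, hki_run_last]
    show tr (Fin.last n) (Fin.last (n + 1)) = _
    rw [tr, ← htr, Equiv.swap_apply_right]
  have hevF : ∀ q : Fin (n + 1), ev 0 F q.castSucc =
      ev 0 f q ++ ev e [(Fin.last n, true)] (run f q).castSucc := by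
    intro q
    rw [hF, hEVA.1, hki_ev_up, hki_nd_up, hnd, hki_run_up, zero_add]
  have hev1 : ∀ r : Fin (n + 2), ev e [(Fin.last n, true)] r =
      if r = (Fin.last n).castSucc ∨ r = Fin.last (n + 1) then [e] else [] := by
    intro r
    show (if true = true ∧ (r = (Fin.last n).castSucc ∨ r = (Fin.last n).succ) then [e] else []) ++
      [] = _
    rw [List.append_nil, htr]
    simp only [true_and]
  have hevF1 : ∀ q : Fin (n + 1), run f q = Fin.last n → ev 0 F q.castSucc = ev 0 f q ++ [e] := by
    intro q h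
    rw [hevF, h, hev1, if_pos (Or.inl rfl)]
  have hevF2 : ∀ q : Fin (n + 1), run f q ≠ Fin.last n → ev 0 F q.castSucc = ev 0 f q := by
    intro q h
    rw [hevF, hev1, if_neg, List.append_nil]
    rintro (h' | h')
    · exact h (Fin.castSucc_injective _ h')
    · exact (Fin.castSucc_lt_last _).ne h'
  have hevF3 : ev 0 F (Fin.last (n + 1)) = [e] := by
    rw [hF, hEVA.1, hki_ev_last, hki_nd_up, hnd, hki_run_last, zero_add, hev1,
      if_pos (Or.inr rfl)]
    rfl
  -- the iterates of `F`
  have hit1 : (run F)^[1] (τ 0).castSucc = Fin.last (n + 1) := hrunF1 _ hτ0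
  have hit : ∀ j : ℕ, j < n → (run F)^[j + 2] (τ 0).castSucc =
      ((run f)^[j + 1] (τ 0)).castSucc := by
    intro j
    induction j with
    | zero =>
      intro _
      rw [Function.iterate_succ_apply', hit1, hrunF3]
      show _ = (run f (τ 0)).castSucc
      rw [hτ0]
    | succ j ih =>
      intro hj
      rw [Function.iterate_succ_apply', ih (by omega), hrunF2 _ (hne (j + 1) (by omega) (by omega)),
        ← Function.iterate_succ_apply' (run f)]
  have hblkF : blk F (τ 0).castSucc = (b ++ [e]) :: [e] :: L := by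
    have h1 : blk f (τ 0) = ev 0 f (τ 0) :: List.ofFn fun j : Fin n =>
        ev 0 f ((run f)^[(j : ℕ) + 1] (τ 0)) := by
      unfold blk
      rw [List.ofFn_succ]
      rfl
    rw [h1] at hblk
    obtain ⟨hb, hL'⟩ := List.cons.inj hblk
    have h2 : blk F (τ 0).castSucc = ev 0 F (τ 0).castSucc ::
        ev 0 F ((run F)^[1] (τ 0).castSucc) :: List.ofFn fun j : Fin n =>
          ev 0 F ((run F)^[(j : ℕ) + 2] (τ 0).castSucc) := by
      unfold blk
      rw [List.ofFn_succ, List.ofFn_succ]
      rfl
    rw [h2, hevF1 _ hτ0, hb, hit1, hevF3]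
    congr 2
    conv_rhs => rw [← hL']
    congr 1
    funext j
    rw [hit j j.isLt, hevF2 _ (hne (j + 1) (by omega) (by have := j.isLt; omega))]
  rw [← hblkF, hH (n + 1) F _ hKF hndF, hg]

end Pool.Agent.H42.LNT
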